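import Mathlib
import Pool.Agent.R129.CG

/-!
# Almost all labelled convex geometries are primitive (MP_0c861e, Q1)
-/

namespace Pool.Agent.Results.MP_0c861e_co.LabelledPrimitive

open Finset Pool.Agent.R129.CG

/-- The number of convex geometries on a labelled set with `n` elements. -/
noncomputable def L (n : ℕ) : ℕ := Nat.card {G : Set (Set (Fin n)) // IsCG G}

/-- The number of primitive convex geometries on a labelled set with `n` elements. -/
noncomputable def Lpr (n : ℕ) : ℕ := Nat.card {G : Set (Set (Fin n)) // IsCG G ∧ Primitive G}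

lemma L_succ (n : ℕ) : 2 ^ n * L n ≤ L (n + 1) := by
  have h := num_option (X := Fin n)
  rw [← num_congr (finSuccEquiv n), Nat.card_eq_fintype_card, Fintype.card_fin] at h
  exact h

lemma L_anti (m k : ℕ) (hk : 1 ≤ k) : 2 ^ (m.choose k) ≤ L (m + 1) := by
  have h := num_antichain m k hk
  rw [← num_congr (finSuccEquiv m)] at h
  exact h

lemma L_le (n : ℕ) : L n ≤ 2 ^ 2 ^ n := by
  have h := num_le (Fin n)
  rw [Nat.card_eq_fintype_card, Fintype.card_fin] at h
  exact h

lemma L_pos (n : ℕ) : 0 < L n := by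
  have : Nonempty {G : Set (Set (Fin n)) // IsCG G} := by
    refine ⟨⟨Set.univ, trivial, fun _ _ _ _ => trivial, fun F _ hne => ?_⟩⟩
    have : (Fᶜ).Nonempty := by
      rw [Set.nonempty_compl]
      exact hne
    obtain ⟨x, hx⟩ := this
    exact ⟨x, hx, trivial⟩
  exact Nat.card_pos

lemma L_add (b k : ℕ) : 2 ^ (k * b) * L b ≤ L (b + k) := by
  induction k with
  | zero => simp
  | succ k ih =>
    have h := L_succ (b + k)
    calc 2 ^ ((k + 1) * b) * L b = 2 ^ b * (2 ^ (k * b) * L b) := by
          rw [Nat.succ_mul, pow_add]; ring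
      _ ≤ 2 ^ (b + k) * L (b + k) :=
          Nat.mul_le_mul (Nat.pow_le_pow_right (by norm_num) (by omega)) ih
      _ ≤ L (b + (k + 1)) := h

/-- The number of geometries which are not primitive. -/
noncomputable def N (n : ℕ) : ℕ := {G : Set (Set (Fin n)) | IsCG G ∧ ¬ Primitive G}.ncard

lemma L_eq (n : ℕ) : L n = Lpr n + N n := by
  have h1 : L n = {G : Set (Set (Fin n)) | IsCG G}.ncard := (Nat.card_coe_set_eq _)
  have h2 : Lpr n = {G : Set (Set (Fin n)) | IsCG G ∧ Primitive G}.ncard := (Nat.card_coe_set_eq _)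
  rw [h1, h2, N, ← Set.ncard_union_eq]
  · congr 1
    ext G
    simp only [Set.mem_ofPred_eq, Set.mem_union]
    tauto
  · rw [Set.disjoint_left]
    rintro G ⟨_, h3⟩ ⟨_, h4⟩
    exact h4 h3

/-- The bound for the number of geometries with a fiber of size `j`. -/
noncomputable def f (n j : ℕ) : ℕ := if 2 ≤ j ∧ j < n then L j * L (n + 1 - j) else 0

lemma N_le (n : ℕ) : N n ≤ ∑ j ∈ range (n + 1), n.choose j * f n j := by
  classical
  have h1 : {G : Set (Set (Fin n)) | IsCG G ∧ ¬ Primitive G} ⊆
      ⋃ s ∈ (univ : Finset (Finset (Fin n))), {G | IsCG G ∧ IsModule G (s : Set (Fin n)) ∧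
        2 ≤ s.card ∧ s.card < n} := by
    rintro G ⟨hG, hP⟩
    obtain ⟨S, hS1, hS2, hS3⟩ := exists_module hP
    rw [Set.mem_iUnion₂]
    refine ⟨S.toFinset, mem_univ _, hG, by simpa using hS3, ?_, ?_⟩
    · rw [← Set.ncard_eq_toFinset_card']
      exact hS1
    · rw [← Set.ncard_eq_toFinset_card']
      have := Set.ncard_lt_card hS2
      rwa [Nat.card_eq_fintype_card, Fintype.card_fin] at this
  have h2 := (Set.ncard_le_ncard h1 (Set.toFinite _)).trans
    (Finset.set_ncard_biUnion_le _ _)
  refine h2.trans ?_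
  have h3 : ∀ s ∈ (univ : Finset (Finset (Fin n))), {G : Set (Set (Fin n)) | IsCG G ∧
      IsModule G (s : Set (Fin n)) ∧ 2 ≤ s.card ∧ s.card < n}.ncard ≤ f n s.card := by
    intro s _
    unfold f
    split_ifs with hc
    · obtain ⟨y0, hy0⟩ : s.Nonempty := by rw [← card_pos]; omega
      have h4 := card_module_le (s : Set (Fin n)) (y0 := y0) (by exact_mod_cast hy0)
      have h5 : num ((s : Set (Fin n)) : Type) = L s.card := by
        have e : ((s : Set (Fin n)) : Type) ≃ Fin s.card := s.equivFin
        exact num_congr e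
      have h6 : num ((insert y0 (s : Set (Fin n))ᶜ : Set (Fin n)) : Type) = L (n + 1 - s.card) := by
        have e : ((insert y0 (s : Set (Fin n))ᶜ : Set (Fin n)) : Type) ≃ Fin (n + 1 - s.card) := by
          apply Finite.equivFinOfCardEq
          rw [Nat.card_coe_set_eq, Set.ncard_insert_of_notMem (by simpa using hy0),
            Set.ncard_compl, Nat.card_eq_fintype_card, Fintype.card_fin, Set.ncard_coe_finset]
          omega
        exact num_congr e
      rw [h5, h6] at h4
      refine le_trans (Set.ncard_le_ncard ?_ (Set.toFinite _)) h4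
      rintro G ⟨g1, g2, -⟩
      exact ⟨g1, g2⟩
    · have : {G : Set (Set (Fin n)) | IsCG G ∧ IsModule G (s : Set (Fin n)) ∧
          2 ≤ s.card ∧ s.card < n} = ∅ := by
        ext G
        simp only [Set.mem_ofPred_eq, Set.mem_empty_iff_false, iff_false]
        rintro ⟨-, -, h4⟩
        exact hc h4
      rw [this, Set.ncard_empty]
  refine (sum_le_sum h3).trans (le_of_eq ?_)
  rw [← powerset_univ, sum_powerset_apply_card]
  simp

/-- The terms with intermediate fibers. -/
lemma term (n a : ℕ) (ha : 3 ≤ a) (hab : 2 * a ≤ n + 1) (hn : 2 ^ 21 ≤ n) :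
    L a * L (n + 1 - a) * 2 ^ (2 * n) ≤ 2 ^ 12 * L n := by
  obtain ⟨b, hb⟩ : ∃ b, b = n + 1 - a := ⟨_, rfl⟩
  have hnb : n = b + (a - 1) := by omega
  rw [← hb]
  have hadd := L_add b (a - 1)
  rw [← hnb] at hadd
  have ha2 := L_le a
  rcases Nat.lt_or_ge a 4 with h4 | h4
  · have h3 : a = 3 := by omega
    subst h3
    have e : 2 * n = 4 + 2 * b := by omega
    calc L 3 * L b * 2 ^ (2 * n) ≤ 2 ^ 2 ^ 3 * L b * 2 ^ (2 * n) := by gcongr
      _ = 2 ^ 12 * (2 ^ ((3 - 1) * b) * L b) := by
          rw [e, pow_add]; norm_num; ring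
      _ ≤ 2 ^ 12 * L n := by gcongr
  · rcases Nat.lt_or_ge (16 * n) (2 ^ a) with hbig | hsmall
    · -- very large fibers
      have hmid := L_anti (n - 1) ((n - 1) / 2) (by omega)
      rw [show n - 1 + 1 = n by omega] at hmid
      set C := (n - 1).choose ((n - 1) / 2) with hC
      have hsum : 2 ^ (n - 1) ≤ n * C := by
        rw [← Nat.sum_range_choose (n - 1), show n - 1 + 1 = n by omega]
        calc ∑ i ∈ range n, (n - 1).choose i ≤ ∑ _i ∈ range n, C :=
              sum_le_sum (fun i _ => Nat.choose_le_middle i (n - 1))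
          _ = n * C := by rw [sum_const, card_range, smul_eq_mul]
      have hsq : ∀ n, 12 ≤ n → 2 * n ^ 2 ≤ 2 ^ (n - 2) := by
        intro n hn
        induction n, hn using Nat.le_induction with
        | base => norm_num
        | succ n hn ih =>
          have e1 : 2 ^ (n + 1 - 2) = 2 * 2 ^ (n - 2) := by
            rw [show n + 1 - 2 = n - 2 + 1 by omega, pow_succ']
          have e2 : (n + 1) ^ 2 ≤ 2 * n ^ 2 := by nlinarith
          rw [e1]
          calc 2 * (n + 1) ^ 2 ≤ 2 * (2 * n ^ 2) := Nat.mul_le_mul_left _ e2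
            _ ≤ 2 * 2 ^ (n - 2) := Nat.mul_le_mul_left _ ih
      have hsq' := hsq n (by omega)
      have h1 : n * 2 ^ (b + 1) ≤ 2 ^ (n - 2) := by
        have h2 : 16 * (n * 2 ^ (b + 1)) ≤ 16 * 2 ^ (n - 2) := by
          calc 16 * (n * 2 ^ (b + 1)) = (16 * n) * 2 ^ (b + 1) := by ring
            _ ≤ 2 ^ a * 2 ^ (b + 1) := Nat.mul_le_mul_right _ hbig.le
            _ = 2 ^ (n + 2) := by rw [← pow_add]; congr 1; omega
            _ = 16 * 2 ^ (n - 2) := by
                rw [show n + 2 = 4 + (n - 2) by omega, pow_add]; norm_num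
        omega
      have h3 : 2 ^ (b + 1) + 2 * n ≤ C := by
        have h4 : n * (2 ^ (b + 1) + 2 * n) ≤ n * C := by
          refine le_trans ?_ hsum
          have e : 2 ^ (n - 1) = 2 ^ (n - 2) + 2 ^ (n - 2) := by
            rw [show n - 1 = n - 2 + 1 by omega, pow_succ]; ring
          rw [e]
          nlinarith
        exact Nat.le_of_mul_le_mul_left h4 (by omega)
      have hbb := L_le b
      have hab' : 2 ^ a ≤ 2 ^ b := Nat.pow_le_pow_right (by norm_num) (by omega)
      calc L a * L b * 2 ^ (2 * n) ≤ 2 ^ 2 ^ a * 2 ^ 2 ^ b * 2 ^ (2 * n) := by gcongr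
        _ = 2 ^ (2 ^ a + 2 ^ b + 2 * n) := by rw [← pow_add, ← pow_add]
        _ ≤ 2 ^ C := by
            apply Nat.pow_le_pow_right (by norm_num)
            rw [pow_succ] at h3
            omega
        _ ≤ L n := hmid
        _ ≤ 2 ^ 12 * L n := Nat.le_mul_of_pos_left _ (by norm_num)
    · have key : 2 ^ a + 2 * n ≤ (a - 1) * b := by
        rcases Nat.lt_or_ge a 21 with h21 | h21
        · have h5 : 2 ^ a ≤ 2 ^ 20 := Nat.pow_le_pow_right (by norm_num) (by omega)
          have h6 : 3 * b ≤ (a - 1) * b := Nat.mul_le_mul_right _ (by omega)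
          norm_num at h5 hn
          omega
        · have h7 : ∀ a, 21 ≤ a → 320 * a ≤ 2 ^ a := by
            intro a ha
            induction a, ha using Nat.le_induction with
            | base => norm_num
            | succ a _ ih => rw [pow_succ]; omega
          have h8 := h7 a h21
          have h6 : 20 * b ≤ (a - 1) * b := Nat.mul_le_mul_right _ (by omega)
          omega
      calc L a * L b * 2 ^ (2 * n) ≤ 2 ^ 2 ^ a * L b * 2 ^ (2 * n) := by gcongr
        _ = 2 ^ (2 ^ a + 2 * n) * L b := by rw [pow_add]; ring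
        _ ≤ 2 ^ ((a - 1) * b) * L b := by
            gcongr
            norm_num
        _ ≤ L n := hadd
        _ ≤ 2 ^ 12 * L n := Nat.le_mul_of_pos_left _ (by norm_num)

lemma N_bound (n : ℕ) (hn : 2 ^ 21 ≤ n) :
    N n * 2 ^ n ≤ (n + 1) * ((4096 + 32 * n ^ 2) * L n) := by
  have hn' : 2097152 ≤ n := by norm_num at hn; exact hn
  have hprev := L_succ (n - 1)
  rw [show n - 1 + 1 = n by omega] at hprev
  have h2 := L_le 2
  have each : ∀ j ∈ range (n + 1), n.choose j * f n j * 2 ^ n ≤ (4096 + 32 * n ^ 2) * L n := by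
    intro j hj
    rw [mem_range] at hj
    unfold f
    split_ifs with hc
    · have hsmall : ∀ c, c ≤ n ^ 2 → c * (L 2 * L (n - 1)) * 2 ^ n ≤
          (4096 + 32 * n ^ 2) * L n := by
        intro c hc
        calc c * (L 2 * L (n - 1)) * 2 ^ n ≤ n ^ 2 * (2 ^ 2 ^ 2 * L (n - 1)) * 2 ^ n := by gcongr
          _ = 32 * n ^ 2 * (2 ^ (n - 1) * L (n - 1)) := by
              have : 2 ^ n = 2 * 2 ^ (n - 1) := by
                rw [← pow_succ']; congr 1; omega
              rw [this]; norm_num; ring
          _ ≤ 32 * n ^ 2 * L n := by gcongr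
          _ ≤ (4096 + 32 * n ^ 2) * L n := by gcongr; omega
      by_cases hj2 : j = 2
      · subst hj2
        rw [show n + 1 - 2 = n - 1 by omega]
        apply hsmall
        exact Nat.choose_le_pow n 2
      · by_cases hj3 : j = n - 1
        · subst hj3
          rw [show n + 1 - (n - 1) = 2 by omega, mul_comm (L (n - 1))]
          apply hsmall
          rw [Nat.choose_symm (by omega : 1 ≤ n), Nat.choose_one_right]
          nlinarith
        · have hT : L j * L (n + 1 - j) * 2 ^ (2 * n) ≤ 2 ^ 12 * L n := by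
            rcases Nat.lt_or_ge (n + 1) (2 * j) with h5 | h5
            · have := term n (n + 1 - j) (by omega) (by omega) hn
              rw [show n + 1 - (n + 1 - j) = j by omega] at this
              rw [mul_comm (L j)]
              exact this
            · exact term n j (by omega) h5 hn
          have hch : n.choose j ≤ 2 ^ n := by
            rw [← Nat.sum_range_choose n]
            exact single_le_sum (f := fun i => n.choose i) (fun _ _ => Nat.zero_le _)
              (mem_range.2 hj)
          calc n.choose j * (L j * L (n + 1 - j)) * 2 ^ n ≤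
              2 ^ n * (L j * L (n + 1 - j)) * 2 ^ n := by gcongr
            _ = L j * L (n + 1 - j) * 2 ^ (2 * n) := by rw [two_mul, pow_add]; ring
            _ ≤ 2 ^ 12 * L n := hT
            _ ≤ (4096 + 32 * n ^ 2) * L n := by
                apply Nat.mul_le_mul_right
                norm_num
    · simp
  calc N n * 2 ^ n ≤ (∑ j ∈ range (n + 1), n.choose j * f n j) * 2 ^ n :=
        Nat.mul_le_mul_right _ (N_le n)
    _ = ∑ j ∈ range (n + 1), n.choose j * f n j * 2 ^ n := sum_mul _ _ _
    _ ≤ ∑ _j ∈ range (n + 1), (4096 + 32 * n ^ 2) * L n := sum_le_sum each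
    _ = (n + 1) * ((4096 + 32 * n ^ 2) * L n) := by
        rw [sum_const, card_range, smul_eq_mul]

/-- **Result.** The proportion of the primitive convex geometries among the convex geometries on a
labelled set with `n` elements tends to `1`. -/
theorem result : Filter.Tendsto (fun n : ℕ => (Lpr n : ℝ) / (L n : ℝ)) Filter.atTop (nhds 1) := by
  have h1 : Filter.Tendsto (fun n : ℕ => 8256 * ((n : ℝ) ^ 3 / 2 ^ n)) Filter.atTop (nhds 0) := by
    have := (tendsto_pow_const_div_const_pow_of_one_lt 3 (by norm_num : (1 : ℝ) < 2)).const_mul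
      8256
    simpa using this
  have h2 : Filter.Tendsto (fun n : ℕ => (1 : ℝ) - 8256 * ((n : ℝ) ^ 3 / 2 ^ n)) Filter.atTop
      (nhds 1) := by
    have := h1.const_sub 1
    simpa using this
  refine tendsto_of_tendsto_of_tendsto_of_le_of_le' h2 tendsto_const_nhds ?_ ?_
  · rw [Filter.eventually_atTop]
    refine ⟨2 ^ 21, fun n hn => ?_⟩
    have hn' : 2097152 ≤ n := by norm_num at hn; exact hn
    have hL : (0 : ℝ) < L n := by exact_mod_cast L_pos n
    have h3 := N_bound n hn
    have h4 : (n + 1) * ((4096 + 32 * n ^ 2) * L n) ≤ 8256 * n ^ 3 * L n := by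
      rw [← mul_assoc]
      apply Nat.mul_le_mul_right
      have : 1 ≤ n := by omega
      nlinarith [Nat.mul_le_mul this this, Nat.mul_le_mul (Nat.mul_le_mul this this) this]
    have h5 : ((N n : ℝ)) * 2 ^ n ≤ 8256 * (n : ℝ) ^ 3 * L n := by exact_mod_cast h3.trans h4
    have h6 : (L n : ℝ) = Lpr n + N n := by exact_mod_cast L_eq n
    have hp : (0 : ℝ) < 2 ^ n := by positivity
    have h7 : (N n : ℝ) / L n ≤ 8256 * ((n : ℝ) ^ 3 / 2 ^ n) := by
      rw [div_le_iff₀ hL, mul_div_assoc', div_mul_eq_mul_div, le_div_iff₀ hp]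
      exact h5
    have h8 : (Lpr n : ℝ) / L n = 1 - (N n : ℝ) / L n := by
      rw [eq_sub_iff_add_eq, ← add_div, ← h6, div_self hL.ne']
    rw [h8]
    linarith
  · refine Filter.Eventually.of_forall (fun n => ?_)
    have hL : (0 : ℝ) < L n := by exact_mod_cast L_pos n
    rw [div_le_one hL]
    have h6 : (L n : ℝ) = Lpr n + N n := by exact_mod_cast L_eq n
    have : (0 : ℝ) ≤ N n := by positivity
    linarith

end Pool.Agent.Results.MP_0c861e_co.LabelledPrimitive
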